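import Pool.Agent.Helper54.GS.Defs
import Pool.Agent.Helper13.GS.DualIso
import Pool.Agent.Helper13.GS.Stab
import Pool.Agent.Helper16.GS.Lift
import Pool.Agent.Helper16.GS.StabMap
import Pool.Agent.Helper30.GS.Fixed
import Pool.Agent.Helper26.GS.NormalClosure
import Pool.Agent.Helper54.FP.Join
import Pool.Agent.Helper54.SL.Final

/-!
# Purely wild inertia groups of order `p` for `SL(V)` and its quotients and extensions by `p`-groups
-/

set_option autoImplicit false
set_option linter.unusedVariables false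
set_option linter.unusedSectionVars false

open Pool.Agent.Helper54.PW Pool.Agent.Helper54.SL Pool.Agent.Helper54.FP

namespace Pool.Agent.Helper54.GS

theorem realAct_of_realizable {k : Type} [Field k] [IsAlgClosed k] {G : Type} [Group G]
    [Finite G] (P : Subgroup G) (x : ValuationSubring (RatFunc k)) (hx : x ≠ ⊤)
    (hxk : ∀ c : k, algebraMap k (RatFunc k) c ∈ x)
    (h : Realizable k G (fun _ : Fin 1 => P) (fun _ => x)) : RealAct k P := by
  obtain ⟨L, _, _, hfd, hgal, φ, hunr, A, hA, hAk, hAX, hst⟩ :=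
    exists_cover_of_realizable P x hx hxk h
  refine ⟨L, _, _, hfd, hgal, φ.symm.toMonoidHom, φ.symm.surjective, ?_, A, hA, hAk, hAX, ?_⟩
  · intro A' hA' hA'k hXA' σ hσ
    rw [hunr A' hA' hA'k hXA' σ hσ, map_one]
  · intro g
    constructor
    · intro hg
      exact ⟨φ g, (hst _).2 ⟨g, hg, rfl⟩, φ.symm_apply_apply g⟩
    · rintro ⟨σ, hσ, rfl⟩
      obtain ⟨g', hg', rfl⟩ := (hst σ).1 hσ
      show φ.symm (φ g') ∈ P
      rw [MulEquiv.symm_apply_apply]
      exact hg'

/-- a point of the projective line -/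
theorem exists_point (k : Type) [Field k] {G : Type} [Group G] {P : Subgroup G}
    (h : RealAct k P) : ∃ x : ValuationSubring (RatFunc k), x ≠ ⊤ ∧
      ∀ c : k, algebraMap k (RatFunc k) c ∈ x := by
  obtain ⟨F, _, _, hfd, hgal, ρ, hρ, h1, A, hA, hAk, hX, h2⟩ := h
  refine ⟨A.comap (algebraMap (RatFunc k) F), ?_, ?_⟩
  · intro h
    apply hX
    have : (RatFunc.X : RatFunc k) ∈ A.comap (algebraMap (RatFunc k) F) := by
      rw [h]; exact ValuationSubring.mem_top _
    exact this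
  · intro c
    exact hAk c

/-- extensions by `p`-groups -/
theorem realAct_of_quotient {p : ℕ} [Fact p.Prime] {k : Type} [Field k] [IsAlgClosed k]
    [CharP k p] {G Q : Type} [Group G] [Finite G] [Group Q] (π : G →* Q)
    (hπ : Function.Surjective π) (hker : IsPGroup p π.ker) (P : Subgroup G) (hP : IsPGroup p P)
    (hgen : Subgroup.normalClosure (P : Set G) = ⊤) (h : RealAct k (P.map π)) : RealAct k P := by
  obtain ⟨x, hx, hxk⟩ := exists_point k h
  apply realAct_of_realizable P x hx hxk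
  refine reduction_aux x hx hxk _ G rfl π.ker hker P hP hgen ?_
  have h1 := realAct_map (QuotientGroup.quotientKerEquivOfSurjective π hπ).symm.toMonoidHom
    (QuotientGroup.quotientKerEquivOfSurjective π hπ).symm.surjective _ h
  rw [Subgroup.map_map] at h1
  have h2 : (QuotientGroup.quotientKerEquivOfSurjective π hπ).symm.toMonoidHom.comp π =
      QuotientGroup.mk' π.ker := by
    ext g
    show (QuotientGroup.quotientKerEquivOfSurjective π hπ).symm (π g) = _
    rw [MulEquiv.symm_apply_eq]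
    rfl
  rw [h2] at h1
  haveI : Finite (G ⧸ π.ker) := inferInstance
  exact realizable_of_realAct _ h1 x hx hxk

theorem isPGroup_zpowers {p : ℕ} [Fact p.Prime] {G : Type} [Group G] {τ : G}
    (hτ : orderOf τ = p) : IsPGroup p (Subgroup.zpowers τ) := by
  apply IsPGroup.of_card (n := 1)
  rw [Nat.card_zpowers, hτ, pow_one]

section
variable {p : ℕ} [Fact p.Prime] {𝔽 : Type} [Field 𝔽] [Finite 𝔽] [CharP 𝔽 p]

/-- the statement for spaces of dimension `n` -/
def GoodDim (k : Type) [Field k] (p : ℕ) (𝔽 : Type) [Field 𝔽] (n : ℕ) : Prop :=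
  ∀ (V : Type) [AddCommGroup V] [Module 𝔽 V] [FiniteDimensional 𝔽 V], Module.finrank 𝔽 V = n →
    ∀ τ : SpecialLinearGroup 𝔽 V, orderOf τ = p → RealAct k (Subgroup.zpowers τ)

theorem finite_sl (V : Type) [AddCommGroup V] [Module 𝔽 V] [FiniteDimensional 𝔽 V] :
    Finite (SpecialLinearGroup 𝔽 V) := by
  haveI : Finite V := Module.finite_of_finite 𝔽
  haveI : Finite (V → V) := inferInstance
  exact Finite.of_injective (fun g : SpecialLinearGroup 𝔽 V => (fun x => g x : V → V))
    (fun a b h => SpecialLinearGroup.ext a b (fun x => congrFun h x))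

/-- the vector stabiliser -/
theorem stab_good (hp5 : 5 ≤ p) {k : Type} [Field k] [IsAlgClosed k] [CharP k p] {n : ℕ}
    (ih : GoodDim k p 𝔽 n) (V : Type) [AddCommGroup V] [Module 𝔽 V] [FiniteDimensional 𝔽 V]
    (hn : 2 ≤ n) (hV : Module.finrank 𝔽 V = n + 1) (τ : SpecialLinearGroup 𝔽 V)
    (hτ : orderOf τ = p) : ∃ v : V, v ≠ 0 ∧ τ ∈ Stv (𝔽 := 𝔽) v ∧
      RealAct k ((Subgroup.zpowers τ).subgroupOf (Stv (𝔽 := 𝔽) v)) := by
  haveI : Finite (SpecialLinearGroup 𝔽 V) := finite_sl V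
  obtain ⟨v, hv, hτv, x, hx⟩ := exists_fixed (p := p) (by omega) τ hτ
  have hmem : τ ∈ Stv (𝔽 := 𝔽) v := by
    rw [MulAction.mem_stabilizer_iff]; exact hτv
  refine ⟨v, hv, hmem, ?_⟩
  obtain ⟨π, hπ, hker, hπx⟩ := exists_stabMap (𝔽 := 𝔽) p v hv
  obtain ⟨τ₁, hτ₁⟩ : ∃ τ₁ : Stv (𝔽 := 𝔽) v, (τ₁ : SpecialLinearGroup 𝔽 V) = τ := ⟨⟨τ, hmem⟩, rfl⟩
  have hord : orderOf τ₁ = p := by
    rw [← hτ, ← hτ₁, Subgroup.orderOf_coe]
  have hfr : Module.finrank 𝔽 (V ⧸ Submodule.span 𝔽 {v}) = n := by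
    have h1 := Submodule.finrank_quotient_add_finrank (Submodule.span 𝔽 {v})
    rw [finrank_span_singleton hv, hV] at h1
    omega
  have hπord : orderOf (π τ₁) = p := by
    apply orderOf_eq_prime
    · rw [← map_pow, ← hord, pow_orderOf_eq_one, map_one]
    · intro h
      apply hx
      have h1 := hπx τ₁ x
      rw [h, hτ₁] at h1
      have h2 : (Submodule.Quotient.mk x : V ⧸ Submodule.span 𝔽 {v}) =
        Submodule.Quotient.mk (τ x) := h1
      rw [eq_comm, Submodule.Quotient.eq] at h2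
      exact h2
  have hgen1 := normalClosure_sl hp5 (by omega) (π τ₁) hπord
  have hgen := normalClosure_stv (by omega) v hv τ₁ π hπx hgen1
  have h1 := ih (V ⧸ Submodule.span 𝔽 {v}) hfr (π τ₁) hπord
  have h2 : RealAct k (Subgroup.zpowers τ₁) := by
    apply realAct_of_quotient π hπ hker _ (isPGroup_zpowers hord)
    · rw [eq_top_iff, ← hgen]
      apply Subgroup.normalClosure_mono
      rw [Set.singleton_subset_iff]
      exact Subgroup.mem_zpowers τ₁
    · rw [MonoidHom.map_zpowers]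
      exact h1
  have h3 : (Subgroup.zpowers τ).subgroupOf (Stv (𝔽 := 𝔽) v) = Subgroup.zpowers τ₁ := by
    ext g
    rw [Subgroup.mem_subgroupOf, Subgroup.mem_zpowers_iff, Subgroup.mem_zpowers_iff]
    constructor
    · rintro ⟨i, hi⟩
      exact ⟨i, Subtype.ext (by rw [Subgroup.coe_zpow, hτ₁]; exact hi)⟩
    · rintro ⟨i, rfl⟩
      exact ⟨i, by rw [Subgroup.coe_zpow, hτ₁]⟩
  rw [h3]
  exact h2

theorem goodDim_step (hp5 : 5 ≤ p) {k : Type} [Field k] [IsAlgClosed k] [CharP k p] {n : ℕ}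
    (hn : 2 ≤ n) (ih : GoodDim k p 𝔽 n) : GoodDim k p 𝔽 (n + 1) := by
  intro V _ _ _ hV τ hτ
  haveI : Finite (SpecialLinearGroup 𝔽 V) := finite_sl V
  obtain ⟨v, hv, hτv, h1⟩ := stab_good hp5 ih V hn hV τ hτ
  obtain ⟨δ, hδ⟩ := exists_dualIso 𝔽 V
  obtain ⟨φ, hφ, hτφ, h2⟩ := stab_good hp5 ih (Module.Dual 𝔽 V) hn
    (by rw [Subspace.dual_finrank_eq]; exact hV) (δ τ) (by rw [MulEquiv.orderOf_eq]; exact hτ)
  have hmem : ∀ g, g ∈ Stf φ ↔ δ g ∈ Stv (𝔽 := 𝔽) φ := by
    intro g
    rw [MulAction.mem_stabilizer_iff]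
    constructor
    · intro hg
      have hg' : g⁻¹ ∈ Stf φ := inv_mem hg
      ext x
      show δ g φ x = φ x
      rw [hδ]
      exact hg' x
    · intro hg
      have hg' : g⁻¹ ∈ Stf φ := by
        intro x
        rw [← hδ]
        show (δ g • φ) x = φ x
        rw [hg]
      rw [← inv_inv g]
      exact inv_mem hg'
  -- the isomorphism of the stabilisers
  have hτf : τ ∈ Stf φ := (hmem τ).2 hτφ
  obtain ⟨e, he⟩ : ∃ e : Stv (𝔽 := 𝔽) φ →* Stf φ, Function.Surjective e ∧
      ∀ g, ((e g : Stf φ) : SpecialLinearGroup 𝔽 V) = δ.symm g := by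
    refine ⟨MonoidHom.mk' (fun g => ⟨δ.symm g, (hmem _).2 (by rw [MulEquiv.apply_symm_apply]; exact g.2)⟩)
      (fun a b => Subtype.ext (by simp)), ?_, fun g => rfl⟩
    intro g
    exact ⟨⟨δ g, (hmem _).1 g.2⟩, Subtype.ext (by simp)⟩
  have h3 : RealAct k ((Subgroup.zpowers τ).subgroupOf (Stf φ)) := by
    have h4 := realAct_map e he.1 _ h2
    have h5 : ((Subgroup.zpowers (δ τ)).subgroupOf (Stv (𝔽 := 𝔽) φ)).map e =
        (Subgroup.zpowers τ).subgroupOf (Stf φ) := by
      ext g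
      rw [Subgroup.mem_subgroupOf, Subgroup.mem_zpowers_iff]
      constructor
      · rintro ⟨a, ha, rfl⟩
        rw [SetLike.mem_coe, Subgroup.mem_subgroupOf, Subgroup.mem_zpowers_iff] at ha
        obtain ⟨i, hi⟩ := ha
        refine ⟨i, ?_⟩
        rw [he.2, ← hi, map_zpow, MulEquiv.symm_apply_apply]
      · rintro ⟨i, hi⟩
        obtain ⟨a, rfl⟩ := he.1 g
        refine ⟨a, ?_, rfl⟩
        rw [SetLike.mem_coe, Subgroup.mem_subgroupOf, Subgroup.mem_zpowers_iff]
        refine ⟨i, ?_⟩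
        rw [← map_zpow, hi, he.2, MulEquiv.apply_symm_apply]
    rw [h5] at h4
    exact h4
  apply realAct_of_join hτ {Stv (𝔽 := 𝔽) v, Stf φ}
  · rintro H (rfl | rfl)
    · exact hτv
    · exact hτf
  · rintro H (rfl | rfl)
    · exact h1
    · exact h3
  · rw [sSup_pair]
    exact stv_sup_stf (by omega) v hv φ hφ

theorem goodDim_two (hp5 : 5 ≤ p) {k : Type} [Field k] [IsAlgClosed k] [CharP k p] :
    GoodDim k p 𝔽 2 := by
  intro V _ _ _ hV τ hτ
  classical
  let _ : Fintype 𝔽 := Fintype.ofFinite 𝔽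
  obtain ⟨n, -, hcard⟩ := FiniteField.card 𝔽 p
  let b : Module.Basis (Fin 2) 𝔽 V := Module.finBasisOfFinrankEq 𝔽 V hV
  let e := Matrix.SpecialLinearGroup.toLin_equiv b
  have h1 : orderOf (e.symm τ) = p := by rw [MulEquiv.orderOf_eq]; exact hτ
  have h2 : RealAct k (Subgroup.zpowers (e.symm τ)) := by
    apply realAct_sl2 hp5 n.pos hcard _ (isPGroup_zpowers h1)
    intro h
    rw [Subgroup.zpowers_eq_bot] at h
    rw [h, orderOf_one] at h1
    exact (Fact.out : p.Prime).one_lt.ne h1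
  have h3 := realAct_map e.toMonoidHom e.surjective _ h2
  rw [MonoidHom.map_zpowers] at h3
  have h4 : e.toMonoidHom (e.symm τ) = τ := e.apply_symm_apply τ
  rw [h4] at h3
  exact h3

theorem realAct_sl (hp5 : 5 ≤ p) {k : Type} [Field k] [IsAlgClosed k] [CharP k p] (n : ℕ)
    (hn : 2 ≤ n) : GoodDim k p 𝔽 n := by
  induction n, hn using Nat.le_induction with
  | base => exact goodDim_two hp5
  | succ n hn ih => exact goodDim_step hp5 hn ih

/-- the purely wild inertia conjecture, one branch point, for all finite groups `G` having a normal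
`p`-subgroup `N` such that `G/N` is a quotient of `SL_m` of a finite field of characteristic `p ≥ 5`,
and `P` such that `PN/N` has order `p` -/
theorem realizable_sl (hp5 : 5 ≤ p) {k : Type} [Field k]
    [IsAlgClosed k] [CharP k p] (m : ℕ) (hm : 2 ≤ m) (G : Type) [Group G] [Finite G]
    (N : Subgroup G) [N.Normal] (hN : IsPGroup p N)
    (π : Matrix.SpecialLinearGroup (Fin m) 𝔽 →* G ⧸ N) (hπ : Function.Surjective π)
    (P : Subgroup G) (hP : IsPGroup p P) (hgen : Subgroup.normalClosure (P : Set G) = ⊤)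
    (hPN : Nat.card (P.map (QuotientGroup.mk' N)) = p)
    (x : ValuationSubring (RatFunc k)) (hx : x ≠ ⊤)
    (hxk : ∀ c : k, algebraMap k (RatFunc k) c ∈ x) :
    Realizable k G (fun _ : Fin 1 => P) (fun _ => x) := by
  classical
  refine reduction_aux x hx hxk _ G rfl N hN P hP hgen ?_
  -- a generator
  haveI : IsCyclic (P.map (QuotientGroup.mk' N)) := isCyclic_of_prime_card hPN
  obtain ⟨t, ht⟩ := IsCyclic.exists_generator (α := P.map (QuotientGroup.mk' N))
  have ht' : Subgroup.zpowers (t : G ⧸ N) = P.map (QuotientGroup.mk' N) := by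
    ext g
    rw [Subgroup.mem_zpowers_iff]
    constructor
    · rintro ⟨i, rfl⟩
      exact Subgroup.zpow_mem _ t.2 i
    · intro hg
      obtain ⟨i, hi⟩ := Subgroup.mem_zpowers_iff.1 (ht ⟨g, hg⟩)
      exact ⟨i, by rw [← Subgroup.coe_zpow, hi]⟩
  have hord : orderOf (t : G ⧸ N) = p := by
    rw [← Nat.card_zpowers, ht', hPN]
  let e := Matrix.SpecialLinearGroup.toLin'_equiv (n := Fin m) (R := 𝔽)
  obtain ⟨τ, hτ, hτt⟩ := exists_lift (p := p) (π.comp e.symm.toMonoidHom)
    (hπ.comp e.symm.surjective) (t : G ⧸ N) hord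
    (fun τ hτ => normalClosure_sl hp5 (by rw [Module.finrank_fin_fun]; exact hm) τ hτ)
  have h1 : RealAct k (Subgroup.zpowers τ) :=
    realAct_sl (𝔽 := 𝔽) hp5 m hm (Fin m → 𝔽) (Module.finrank_fin_fun 𝔽) τ hτ
  have h2 := realAct_map (π.comp e.symm.toMonoidHom) (hπ.comp e.symm.surjective) _ h1
  rw [MonoidHom.map_zpowers, hτt, ht'] at h2
  exact realizable_of_realAct _ h2 x hx hxk

end

end Pool.Agent.Helper54.GS
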