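import Pool.Agent.Helper54.GS.Main
import Pool.Agent.Helper86.GS.NCProd
import Pool.Agent.Helper1.GS.LiftPi
import Pool.Agent.Helper23.GS.CommutatorSL

/-!
# Finite products of groups `SL_m(q)`
-/

set_option autoImplicit false
set_option linter.unusedVariables false
set_option linter.unusedSectionVars false

open Pool.Agent.Helper54.PW Pool.Agent.Helper54.SL Pool.Agent.Helper54.FP

namespace Pool.Agent.Helper54.GS

/-- one factor times a cyclic group of order `p` -/
theorem realAct_prod {p : ℕ} [Fact p.Prime] {k : Type} [Field k] [IsAlgClosed k] [CharP k p]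
    {L A : Type} [Group L] [Finite L] [Group A] [Finite A] (hL : commutator L = ⊤)
    (τ : L) (hτp : orderOf τ = p) (hτ : Subgroup.normalClosure ({τ} : Set L) = ⊤)
    (h : RealAct k (Subgroup.zpowers τ)) (a : A)
    (ha : Subgroup.zpowers a = ⊤) (hap : orderOf a = p) :
    RealAct k (Subgroup.zpowers ((τ, a) : L × A)) := by
  have hord : orderOf ((τ, a) : L × A) = p := by
    rw [Prod.orderOf_mk, hτp, hap, Nat.lcm_self]
  apply realAct_of_quotient (MonoidHom.fst L A) Prod.fst_surjective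
  · -- the kernel is a p-group
    intro g
    refine ⟨1, ?_⟩
    have hg : g.1.1 = 1 := g.2
    have h2 : g.1.2 ∈ Subgroup.zpowers a := by rw [ha]; exact Subgroup.mem_top _
    obtain ⟨j, hj⟩ := Subgroup.mem_zpowers_iff.1 h2
    have h3 : g.1.2 ^ p = 1 := by
      rw [← hj, ← zpow_natCast, ← zpow_mul, mul_comm, zpow_mul, zpow_natCast, ← hap,
        pow_orderOf_eq_one, one_zpow]
    apply Subtype.ext
    rw [pow_one, Subgroup.coe_pow, Subgroup.coe_one]
    exact Prod.ext (by rw [Prod.pow_fst, hg, one_pow, Prod.fst_one])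
      (by rw [Prod.pow_snd, h3, Prod.snd_one])
  · exact isPGroup_zpowers hord
  · rw [eq_top_iff, ← normalClosure_prod_zpowers hL τ hτ a ha]
    apply Subgroup.normalClosure_mono
    rw [Set.singleton_subset_iff]
    exact Subgroup.mem_zpowers _
  · rw [MonoidHom.map_zpowers]
    exact h

theorem realAct_pi {p : ℕ} [Fact p.Prime] {k : Type} [Field k] [IsAlgClosed k] [CharP k p]
    {ι : Type} [Finite ι] (L : ι → Type) [∀ i, Group (L i)] [∀ i, Finite (L i)]
    (hL : ∀ i, commutator (L i) = ⊤)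
    (hn : ∀ i (τ : L i), orderOf τ = p → Subgroup.normalClosure ({τ} : Set (L i)) = ⊤)
    (hr : ∀ i (τ : L i), orderOf τ = p → RealAct k (Subgroup.zpowers τ))
    (τ : ∀ i, L i) (hτ : orderOf τ = p) (hτi : ∀ i, τ i ≠ 1) :
    RealAct k (Subgroup.zpowers τ) := by
  classical
  have hτp : τ ^ p = 1 := by rw [← hτ]; exact pow_orderOf_eq_one τ
  have hi : ∀ i, orderOf (τ i) = p := by
    intro i
    apply orderOf_eq_prime _ (hτi i)
    rw [← Pi.pow_apply, hτp]; rfl
  obtain ⟨a, ha⟩ : ∃ a : Subgroup.zpowers τ, a = ⟨τ, Subgroup.mem_zpowers τ⟩ := ⟨_, rfl⟩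
  have hap : orderOf a = p := by
    rw [← Subgroup.orderOf_coe, ha]; exact hτ
  have hat : Subgroup.zpowers a = ⊤ := by
    rw [eq_top_iff]
    rintro ⟨x, hx⟩ -
    obtain ⟨j, hj⟩ := Subgroup.mem_zpowers_iff.1 hx
    refine Subgroup.mem_zpowers_iff.2 ⟨j, Subtype.ext ?_⟩
    rw [Subgroup.coe_zpow, ha]; exact hj
  -- the homomorphisms
  obtain ⟨f, hf⟩ : ∃ f : ∀ i, (L i × Subgroup.zpowers τ) →* (∀ i, L i),
      ∀ i x, f i x = Function.update (x.2 : ∀ i, L i) i x.1 := by
    refine ⟨fun i => MonoidHom.mk' (fun x => Function.update (x.2 : ∀ i, L i) i x.1) ?_,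
      fun i x => rfl⟩
    intro x y
    funext j
    by_cases hj : j = i
    · subst hj
      simp
    · simp [Function.update_of_ne hj]
  have hfτ : ∀ i, f i (τ i, a) = τ := by
    intro i
    rw [hf, ha]
    exact Function.update_eq_self i τ
  apply realAct_of_join hτ (Set.range fun i => (f i).range)
  · rintro _ ⟨i, rfl⟩
    exact ⟨(τ i, a), hfτ i⟩
  · rintro _ ⟨i, rfl⟩
    have h1 := realAct_prod (k := k) (hL i) (τ i) (hi i) (hn i _ (hi i)) (hr i _ (hi i)) a hat hap
    have h2 := realAct_map (f i).rangeRestrict (f i).rangeRestrict_surjective _ h1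
    rw [MonoidHom.map_zpowers] at h2
    have h3 : (Subgroup.zpowers τ).subgroupOf (f i).range =
        Subgroup.zpowers ((f i).rangeRestrict (τ i, a)) := by
      ext g
      rw [Subgroup.mem_subgroupOf, Subgroup.mem_zpowers_iff, Subgroup.mem_zpowers_iff]
      constructor
      · rintro ⟨j, hj⟩
        refine ⟨j, Subtype.ext ?_⟩
        rw [Subgroup.coe_zpow, MonoidHom.coe_rangeRestrict, hfτ]
        exact hj
      · rintro ⟨j, rfl⟩
        refine ⟨j, ?_⟩
        rw [Subgroup.coe_zpow, MonoidHom.coe_rangeRestrict, hfτ]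
    show RealAct k ((Subgroup.zpowers τ).subgroupOf (f i).range)
    rw [h3]
    exact h2
  · rw [eq_top_iff]
    intro x _
    apply Subgroup.pi_mem_of_mulSingle_mem x
    intro i
    have h1 : Pi.mulSingle i (x i) = f i (x i, 1) := by
      rw [hf]; rfl
    rw [h1]
    have h2 : (f i).range ≤ sSup (Set.range fun i => (f i).range) :=
      le_sSup (Set.mem_range_self i)
    exact h2 ⟨_, rfl⟩

theorem realAct_quotient_pi {p : ℕ} [Fact p.Prime] {k : Type} [Field k] [IsAlgClosed k]
    [CharP k p] {ι : Type} [Finite ι] (L : ι → Type) [∀ i, Group (L i)] [∀ i, Finite (L i)]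
    (hL : ∀ i, commutator (L i) = ⊤)
    (hn : ∀ i (τ : L i), orderOf τ = p → Subgroup.normalClosure ({τ} : Set (L i)) = ⊤)
    (hr : ∀ i (τ : L i), orderOf τ = p → RealAct k (Subgroup.zpowers τ))
    {Q : Type} [Group Q] (π : (∀ i, L i) →* Q) (hπ : Function.Surjective π) (t : Q)
    (ht : orderOf t = p) (htn : Subgroup.normalClosure ({t} : Set Q) = ⊤) :
    RealAct k (Subgroup.zpowers t) := by
  classical
  let _ : Fintype ι := Fintype.ofFinite ι
  obtain ⟨τ, hτ, hτt⟩ := exists_lift_pi L hL hn π hπ t ht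
  -- the factors where `τ` is nontrivial
  obtain ⟨E, hE⟩ : ∃ E : (∀ i : {i // τ i ≠ 1}, L i) →* (∀ i, L i),
      ∀ x i, E x i = if h : τ i ≠ 1 then x ⟨i, h⟩ else 1 := by
    refine ⟨MonoidHom.mk' (fun x i => if h : τ i ≠ 1 then x ⟨i, h⟩ else 1) ?_, fun x i => rfl⟩
    intro x y
    funext i
    by_cases h : τ i ≠ 1
    · simp only [dif_pos h, Pi.mul_apply]
    · simp only [dif_neg h, Pi.mul_apply, mul_one]
  obtain ⟨τ', hτ'⟩ : ∃ τ' : ∀ i : {i // τ i ≠ 1}, L i, ∀ i, τ' i = τ i.1 :=
    ⟨fun i => τ i.1, fun i => rfl⟩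
  have hEτ : E τ' = τ := by
    funext i
    rw [hE]
    by_cases h : τ i ≠ 1
    · rw [dif_pos h, hτ']
    · rw [dif_neg h]
      exact (not_not.1 h).symm
  have hEinj : Function.Injective E := by
    intro x y hxy
    funext i
    have := congrFun hxy i.1
    rw [hE, hE, dif_pos i.2, dif_pos i.2] at this
    exact this
  have hord : orderOf τ' = p := by
    rw [← orderOf_injective E hEinj τ', hEτ, hτ]
  have hsurj : Function.Surjective (π.comp E) := by
    rw [← MonoidHom.range_eq_top, eq_top_iff, ← htn]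
    haveI : (π.comp E).range.Normal := by
      constructor
      rintro _ ⟨x, rfl⟩ g
      obtain ⟨y, rfl⟩ := hπ g
      refine ⟨fun i => y i.1 * x i * (y i.1)⁻¹, ?_⟩
      have h1 : E (fun i => y i.1 * x i * (y i.1)⁻¹) = y * E x * y⁻¹ := by
        funext i
        rw [hE]
        by_cases h : τ i ≠ 1
        · rw [dif_pos h]
          simp only [Pi.mul_apply, Pi.inv_apply]
          rw [hE, dif_pos h]
        · rw [dif_neg h]
          simp only [Pi.mul_apply, Pi.inv_apply]
          rw [hE, dif_neg h, mul_one, mul_inv_cancel]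
      rw [MonoidHom.comp_apply, h1, MonoidHom.comp_apply, map_mul, map_mul, map_inv]
    apply Subgroup.normalClosure_le_normal
    rw [Set.singleton_subset_iff]
    exact ⟨τ', by rw [MonoidHom.comp_apply, hEτ, hτt]⟩
  have h1 := realAct_pi (k := k) (fun i : {i // τ i ≠ 1} => L i) (fun i => hL i)
    (fun i => hn i) (fun i => hr i) τ' hord (fun i => by rw [hτ']; exact i.2)
  have h2 := realAct_map (π.comp E) hsurj _ h1
  rw [MonoidHom.map_zpowers, MonoidHom.comp_apply, hEτ, hτt] at h2
  exact h2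

/-- the purely wild inertia conjecture, one branch point, for all finite groups `G` having a normal
`p`-subgroup `N` such that `G/N` is a quotient of a finite product of groups `SL_m(q)`, and `P` such
that `PN/N` has order `p` -/
theorem realizable_pi {p : ℕ} [Fact p.Prime] (hp5 : 5 ≤ p) {k : Type} [Field k]
    [IsAlgClosed k] [CharP k p] {ι : Type} [Finite ι] (m : ι → ℕ) (hm : ∀ i, 2 ≤ m i)
    (𝔽 : ι → Type) [∀ i, Field (𝔽 i)] [∀ i, Finite (𝔽 i)] [∀ i, CharP (𝔽 i) p]
    (G : Type) [Group G] [Finite G]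
    (N : Subgroup G) [N.Normal] (hN : IsPGroup p N)
    (π : (∀ i, Matrix.SpecialLinearGroup (Fin (m i)) (𝔽 i)) →* G ⧸ N)
    (hπ : Function.Surjective π)
    (P : Subgroup G) (hP : IsPGroup p P) (hgen : Subgroup.normalClosure (P : Set G) = ⊤)
    (hPN : Nat.card (P.map (QuotientGroup.mk' N)) = p)
    (x : ValuationSubring (RatFunc k)) (hx : x ≠ ⊤)
    (hxk : ∀ c : k, algebraMap k (RatFunc k) c ∈ x) :
    Realizable k G (fun _ : Fin 1 => P) (fun _ => x) := by
  classical
  refine reduction_aux x hx hxk _ G rfl N hN P hP hgen ?_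
  -- a generator
  haveI : IsCyclic (P.map (QuotientGroup.mk' N)) := isCyclic_of_prime_card hPN
  obtain ⟨t, ht⟩ := IsCyclic.exists_generator (α := P.map (QuotientGroup.mk' N))
  have ht' : Subgroup.zpowers (t : G ⧸ N) = P.map (QuotientGroup.mk' N) := by
    ext g
    rw [Subgroup.mem_zpowers_iff]
    constructor
    · rintro ⟨i, rfl⟩
      exact Subgroup.zpow_mem _ t.2 i
    · intro hg
      obtain ⟨i, hi⟩ := Subgroup.mem_zpowers_iff.1 (ht ⟨g, hg⟩)
      exact ⟨i, by rw [← Subgroup.coe_zpow, hi]⟩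
  have hord : orderOf (t : G ⧸ N) = p := by
    rw [← Nat.card_zpowers, ht', hPN]
  have htn : Subgroup.normalClosure ({(t : G ⧸ N)} : Set (G ⧸ N)) = ⊤ := by
    have h1 := Subgroup.map_normalClosure (P : Set G) (QuotientGroup.mk' N)
      (QuotientGroup.mk'_surjective N)
    rw [hgen, Subgroup.map_top_of_surjective _ (QuotientGroup.mk'_surjective N)] at h1
    rw [eq_top_iff, h1]
    apply Subgroup.normalClosure_le_normal
    intro g hg
    have hg' : g ∈ Subgroup.zpowers (t : G ⧸ N) := by rw [ht']; exact hg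
    obtain ⟨i, rfl⟩ := Subgroup.mem_zpowers_iff.1 hg'
    exact Subgroup.zpow_mem _ (Subgroup.subset_normalClosure (Set.mem_singleton _)) i
  -- transport to matrices
  have key : ∀ i, (commutator (Matrix.SpecialLinearGroup (Fin (m i)) (𝔽 i)) = ⊤) ∧
      (∀ τ : Matrix.SpecialLinearGroup (Fin (m i)) (𝔽 i), orderOf τ = p →
        Subgroup.normalClosure ({τ} : Set (Matrix.SpecialLinearGroup (Fin (m i)) (𝔽 i))) = ⊤) ∧
      (∀ τ : Matrix.SpecialLinearGroup (Fin (m i)) (𝔽 i), orderOf τ = p →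
        RealAct k (Subgroup.zpowers τ)) := by
    intro i
    let e := Matrix.SpecialLinearGroup.toLin'_equiv (n := Fin (m i)) (R := 𝔽 i)
    have hfr : Module.finrank (𝔽 i) (Fin (m i) → 𝔽 i) = m i := Module.finrank_fin_fun _
    have hn : ∀ τ : SpecialLinearGroup (𝔽 i) (Fin (m i) → 𝔽 i), orderOf τ = p →
        Subgroup.normalClosure ({τ} : Set (SpecialLinearGroup (𝔽 i) (Fin (m i) → 𝔽 i))) = ⊤ :=
      fun τ hτ => normalClosure_sl hp5 (by rw [hfr]; exact hm i) τ hτ
    have hc := commutator_sl (p := p) (𝔽 := 𝔽 i) (V := Fin (m i) → 𝔽 i) hp5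
      (by rw [hfr]; exact hm i) hn
    refine ⟨?_, ?_, ?_⟩
    · have h1 := Subgroup.map_commutator (⊤ : Subgroup (SpecialLinearGroup (𝔽 i)
        (Fin (m i) → 𝔽 i))) ⊤ e.symm.toMonoidHom
      rw [← commutator_def, hc, Subgroup.map_top_of_surjective _ e.symm.surjective,
        ← commutator_def] at h1
      exact h1.symm
    · intro τ hτ
      have h1 := Subgroup.map_normalClosure ({e τ} : Set (SpecialLinearGroup (𝔽 i)
        (Fin (m i) → 𝔽 i))) e.symm.toMonoidHom e.symm.surjective
      rw [hn (e τ) (by rw [MulEquiv.orderOf_eq]; exact hτ),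
        Subgroup.map_top_of_surjective _ e.symm.surjective, Set.image_singleton] at h1
      have h2 : e.symm.toMonoidHom (e τ) = τ := e.symm_apply_apply τ
      rw [h2] at h1
      exact h1.symm
    · intro τ hτ
      have h1 : RealAct k (Subgroup.zpowers (e τ)) :=
        realAct_sl (𝔽 := 𝔽 i) hp5 (m i) (hm i) (Fin (m i) → 𝔽 i) hfr (e τ)
          (by rw [MulEquiv.orderOf_eq]; exact hτ)
      have h2 := realAct_map e.symm.toMonoidHom e.symm.surjective _ h1
      rw [MonoidHom.map_zpowers] at h2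
      have h3 : e.symm.toMonoidHom (e τ) = τ := e.symm_apply_apply τ
      rw [h3] at h2
      exact h2
  have h1 := realAct_quotient_pi (k := k) (fun i => Matrix.SpecialLinearGroup (Fin (m i)) (𝔽 i))
    (fun i => (key i).1) (fun i => (key i).2.1) (fun i => (key i).2.2) π hπ (t : G ⧸ N) hord htn
  rw [ht'] at h1
  exact realizable_of_realAct _ h1 x hx hxk

end Pool.Agent.Helper54.GS
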