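import Mathlib

/-!
# Stabilisers of vectors and linear forms in SL(V)
-/

set_option autoImplicit false

namespace Pool.Agent.Helper54.GS

section
variable {𝔽 : Type} [Field 𝔽] {V : Type} [AddCommGroup V] [Module 𝔽 V]

/-- stabiliser of a vector in `SL(V)` -/
abbrev Stv (v : V) : Subgroup (SpecialLinearGroup 𝔽 V) :=
  MulAction.stabilizer (SpecialLinearGroup 𝔽 V) v

/-- stabiliser of a linear form in `SL(V)` -/
def Stf (φ : Module.Dual 𝔽 V) : Subgroup (SpecialLinearGroup 𝔽 V) where
  carrier := {g | ∀ x : V, φ (g x) = φ x}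
  mul_mem' := by
    intro a b ha hb x
    have := ha (b x)
    rw [← hb x, ← this]
    rfl
  one_mem' := fun x => rfl
  inv_mem' := by
    intro a ha x
    have := ha (a⁻¹ x)
    rw [← this]
    congr 1
    exact (congrArg (fun g : SpecialLinearGroup 𝔽 V => g x) (mul_inv_cancel a)).symm ▸ rfl

theorem mem_Stf {φ : Module.Dual 𝔽 V} {g : SpecialLinearGroup 𝔽 V} :
    g ∈ Stf φ ↔ ∀ x : V, φ (g x) = φ x := Iff.rfl
end

end Pool.Agent.Helper54.GS
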